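import Pool.Agent.Q50.TF.Defs

/-!
# Étale motivic cohomology of regular arithmetic schemes built from finite-dimensional motives:
definitions
-/

set_option autoImplicit false

open AlgebraicGeometry CategoryTheory

universe u

namespace Pool.Agent.Q50.TF

/-- Étale motivic cohomology with correspondences over finite fields: see `EtMot`; moreover
`Bundle r X Y`: `X` is the projective bundle of a vector bundle of rank `r + 1` on `Y`;
`OverF q X`: `X` is smooth, projective and geometrically connected over a field with `q` elements;
`FinDim X`: the Chow motive of `X` (rational coefficients) is finite-dimensional in the sense of Kimura. -/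
structure MotData extends EtMot.{u} where
  /-- projective bundles -/
  Bundle : ℕ → ArSch → ArSch → Prop
  /-- smooth projective varieties over the field with `q` elements -/
  OverF : ℕ → ArSch → Prop
  /-- finite-dimensional motive -/
  FinDim : ArSch → Prop
  /-- the groups `V X e j = H^i(X_et, ℚ(m))`, `m = dim X + e`, `i = 2 m - j` -/
  V : ArSch → ℕ → ℕ → Type u
  [vgrp : ∀ X e j, AddCommGroup (V X e j)]
  /-- the groups `A X e j = H^(i-1)(X_et, (ℚ/ℤ)(m))`, `m = dim X + e`, `i = 2 m - j` -/
  A : ArSch → ℕ → ℕ → Type u
  [agrp : ∀ X e j, AddCommGroup (A X e j)]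
  /-- the `ℚ`-algebra of correspondences of degree zero of `X` over the finite field, modulo rational
  equivalence -/
  Corr : ArSch → Type u
  [ring : ∀ X, Ring (Corr X)]
  [alg : ∀ X, Algebra ℚ (Corr X)]
  /-- the action of the correspondences on `V` -/
  act : ∀ X e j, Corr X →+* AddMonoid.End (V X e j)
  /-- the Frobenius endomorphism -/
  Fr : ∀ X, Corr X
  /-- the projector to the cohomology of degree `2 dim X`, given by a zero-cycle of degree one -/
  top : ∀ X, Corr X

attribute [instance] MotData.vgrp MotData.agrp MotData.ring MotData.alg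

variable (T : MotData.{u})

/-- The smallest class of regular connected schemes, proper over the integers, which contains the
members of `S`, the schemes of dimension at most one and the smooth projective varieties over finite
fields with a finite-dimensional motive, and which is closed under projective bundles (total space and
base), blow-ups in a member (blow-up and blown-down scheme), and passage from `W` to `X` for dominant
morphisms `W → X`. -/
inductive MotData.Built (S : Set ArSch) : ArSch → Prop
  | of {X : ArSch} (h : X ∈ S) : Built S X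
  | low {X : ArSch} (h : X.dim ≤ 1) : Built S X
  | finDim {q : ℕ} {X : ArSch} (h : T.OverF q X) (h' : T.FinDim X) : Built S X
  | bundle {r : ℕ} {X Y : ArSch} (h : T.Bundle r X Y) (hY : Built S Y) : Built S X
  | base {r : ℕ} {X Y : ArSch} (h : T.Bundle r X Y) (hX : Built S X) : Built S Y
  | blowUp {X' X Y : ArSch} (h : T.BlowUp X' X Y) (hX : Built S X) (hY : Built S Y) : Built S X'
  | blowDown {X' X Y : ArSch} (h : T.BlowUp X' X Y) (hX : Built S X') : Built S X
  | image {W X : ArSch} (h : Map W X) (hW : Built S W) : Built S X

/-- Known facts, as in `EtMot.Facts`: transfer for dominant morphisms, finiteness of the torsion, blow-up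
formula, dimension at most one. -/
structure MotData.BasicFacts : Prop where
  map : ∀ W X, Map W X → X.dim ≤ W.dim ∧ ∃ N, 0 < N ∧ ∀ e j : ℕ, Transfer N (T.G X e j) (T.G W e j)
  torsion : ∀ X (e j N : ℕ), 0 < N → {x : T.G X e j | N • x = 0}.Finite
  blow : ∀ X' X Y, T.BlowUp X' X Y → X'.dim = X.dim ∧ Y.dim + 2 ≤ X.dim ∧
    ∀ e j : ℕ, Nonempty (T.G X' e j ≃+
      T.G X e j × (∀ l : Fin (X.dim - Y.dim - 1), T.G Y (e + 1 + l) j))
  low : ∀ X, X.dim ≤ 1 → ∀ e j : ℕ, AddGroup.FG (T.G X e j)

/-- Known facts. `bundle`: the projective bundle formula, `H^i(X_et, ℤ(m))` is the direct sum of the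
`H^(i-2l)(Y_et, ℤ(m-l))`, `l ≤ r`. For `X` smooth, projective and geometrically connected over the
field with `q` elements: `prime_power`: `q ≥ 2`; `coeff`: coefficient sequence; `finite` (Deligne,
Gabber, Milne): finiteness of `H^(i-1)(X_et, (ℚ/ℤ)(m))` for `m ≥ dim X`, `i = 2 m - j ≤ 2 m`; `zero`
(Colliot-Thélène, Sansuc, Soulé; Kato, Saito): `H^(2d)(X_et, ℤ(d))`, `d = dim X`, is finitely
generated. -/
structure MotData.FieldFacts : Prop where
  bundle : ∀ r X Y, T.Bundle r X Y → X.dim = Y.dim + r ∧
    ∀ e j : ℕ, Nonempty (T.G X e j ≃+ (∀ l : Fin (r + 1), T.G Y (e + l) j))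
  prime_power : ∀ q X, T.OverF q X → 2 ≤ q
  coeff : ∀ X e j, ∃ (f : T.A X e j →+ T.G X e j) (g : T.G X e j →+ T.V X e j), Function.Exact f g
  finite : ∀ q X, T.OverF q X → ∀ e j, Finite (T.A X e j)
  zero : ∀ q X, T.OverF q X → AddGroup.FG (T.G X 0 0)

/-- Some power of `P(F)` is zero in the correspondences outside the top cohomology, `P` a polynomial
whose roots have absolute value `q^(i/2)` with `i < 2 dim X`. -/
def MotData.Nilpotent (q : ℕ) (X : ArSch) : Prop :=
  ∃ (P : Polynomial ℚ) (k : ℕ), (Polynomial.aeval (T.Fr X) P) ^ k * (1 - T.top X) = 0 ∧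
    ∀ z : ℂ, Polynomial.aeval z P = 0 → ∃ i < 2 * X.dim, ‖z‖ ^ 2 = (q : ℝ) ^ i

/-- The correspondence `q^m`, `m = dim X + e`. -/
def MotData.scalar (q : ℕ) (X : ArSch) (e : ℕ) : T.Corr X :=
  algebraMap ℚ (T.Corr X) ((q : ℚ) ^ (X.dim + e))

/-- Known facts for `X` smooth, projective and geometrically connected over the field with `q` elements.
`frobenius` (Kimura, Deligne): if the motive is finite-dimensional, then some power of `P(F)` is zero in
the correspondences outside the top cohomology, `P` the product of the characteristic polynomials of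
the Frobenius on the cohomology groups of degree `i < 2 d`, whose roots have absolute value
`q^(i/2)`; `top`: the projector to the top cohomology acts on `H^i(X_et, ℚ(m))` through
`H^(i-2d)(𝔽_q, ℚ(m-d))`, which is zero unless `m = d`, `i = 2 d`; `weight` (Soulé): the Frobenius acts
on `H^i(X_et, ℚ(m))` as `q^m`. -/
structure MotData.FrobeniusFacts : Prop where
  frobenius : ∀ q X, T.OverF q X → T.FinDim X → T.Nilpotent q X
  top : ∀ q X, T.OverF q X → ∀ e j, (e, j) ≠ (0, 0) → T.act X e j (T.top X) = 0
  weight : ∀ q X, T.OverF q X → ∀ e j, T.act X e j (T.Fr X) = T.act X e j (T.scalar q X e)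

/-- The known facts. -/
structure MotData.Facts : Prop extends T.BasicFacts, T.FieldFacts, T.FrobeniusFacts

end Pool.Agent.Q50.TF
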