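import Pool.Agent.Q50.TF.Defs

/-!
# Étale motivic cohomology of regular arithmetic threefolds
-/

set_option autoImplicit false
set_option maxHeartbeats 4000000
set_option synthInstance.maxHeartbeats 400000
set_option linter.unusedSectionVars false

open AlgebraicGeometry CategoryTheory

universe u

namespace Pool.Agent.Q50.TF

theorem fg_iff {A : Type u} [AddCommGroup A] : AddGroup.FG A ↔ Module.Finite ℤ A :=
  (Module.Finite.iff_addGroup_fg (G := A)).symm

theorem fg_equiv {A B : Type u} [AddCommGroup A] [AddCommGroup B] (e : A ≃+ B)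
    (h : AddGroup.FG B) : AddGroup.FG A := by
  rw [fg_iff] at *
  exact Module.Finite.equiv e.symm.toIntLinearEquiv

theorem fg_prod {A B : Type u} [AddCommGroup A] [AddCommGroup B] (h : AddGroup.FG A)
    (h' : AddGroup.FG B) : AddGroup.FG (A × B) := by
  rw [fg_iff] at *
  infer_instance

theorem fg_pi {n : ℕ} {B : Fin n → Type u} [∀ j, AddCommGroup (B j)] (h : ∀ j, AddGroup.FG (B j)) :
    AddGroup.FG (∀ j, B j) := by
  rw [fg_iff]
  have : ∀ j, Module.Finite ℤ (B j) := fun j => fg_iff.1 (h j)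
  infer_instance

theorem fg_transfer {N : ℕ} {A B : Type u} [AddCommGroup A] [AddCommGroup B]
    (h : Transfer N A B) (ht : {x : A | N • x = 0}.Finite) (hB : AddGroup.FG B) :
    AddGroup.FG A := by
  obtain ⟨f, g, hfg⟩ := h
  rw [fg_iff] at *
  have h1 : IsNoetherian ℤ B := isNoetherian_of_isNoetherianRing_of_finite ℤ B
  let f' : A →ₗ[ℤ] B := f.toIntLinearMap
  have h2 : Finite (LinearMap.ker f') := by
    refine (Set.Finite.subset ht (fun x hx => ?_)).to_subtype
    change N • x = 0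
    have h3 : f x = 0 := hx
    rw [← hfg x, h3, map_zero]
  have h3 : Module.Finite ℤ (LinearMap.ker f') := Module.Finite.of_finite
  have h4 : Module.Finite ℤ (LinearMap.range f') := inferInstance
  have h5 : Module.Finite ℤ (A ⧸ LinearMap.ker f') := Module.Finite.equiv f'.quotKerEquivRange.symm
  exact Module.Finite.of_submodule_quotient (LinearMap.ker f')

variable {T : EtMot.{u}}

theorem fg_of_map (hT : T.Facts) {W X : ArSch} (h : Map W X) {e j : ℕ}
    (hW : AddGroup.FG (T.G W e j)) : AddGroup.FG (T.G X e j) := by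
  obtain ⟨-, N, hN, ht⟩ := hT.map W X h
  exact fg_transfer (ht e j) (hT.torsion X e j N hN) hW

theorem fg_of_tower (hT : T.Facts) {W' W : ArSch} (h : T.Tower W' W) (h3 : W.dim ≤ 3) :
    W'.dim = W.dim ∧ ∀ e j : ℕ, AddGroup.FG (T.G W e j) → AddGroup.FG (T.G W' e j) := by
  induction h with
  | refl => exact ⟨rfl, fun _ _ h => h⟩
  | step h hb ih =>
    obtain ⟨hd, ih⟩ := ih h3
    obtain ⟨hd', hY, hb⟩ := hT.blow _ _ _ hb
    refine ⟨hd'.trans hd, fun e j hW => ?_⟩
    obtain ⟨E⟩ := hb e j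
    exact fg_equiv E (fg_prod (ih e j hW) (fg_pi fun l => hT.low _ (by omega) _ _))

theorem fg_of_rat (hT : T.Facts) {W X : ArSch} (h : RatMap W X) (h3 : W.dim ≤ 3) {e j : ℕ}
    (hW : AddGroup.FG (T.G W e j)) : AddGroup.FG (T.G X e j) := by
  obtain ⟨W', ht, hm⟩ := hT.resolve W X h h3
  exact fg_of_map hT hm ((fg_of_tower hT ht h3).2 e j hW)

theorem fg_unirational (hT : T.Facts) (F : Type) [Field F] [NumberField F] (k : ℕ) (hk : k ≤ 2)
    (X : ArSch) (h : Nonempty (X.K →+* FractionRing (MvPolynomial (Fin k) F))) (e j : ℕ) :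
    AddGroup.FG (T.G X e j) := by
  obtain ⟨W, S, hW, hS, ⟨E⟩, hp⟩ := hT.space F k
  obtain ⟨f⟩ := h
  have h1 : RatMap W X := ⟨E.symm.toRingHom.comp f⟩
  refine fg_of_rat hT h1 (by omega) ?_
  obtain ⟨E'⟩ := hp e j
  exact fg_equiv E' (fg_pi fun l => hT.low _ (by omega) _ _)

theorem q1_iff {X : ArSch} : T.Q1 X ↔ ∀ j : ℕ, AddGroup.FG (T.G X 0 j) := by
  constructor
  · intro h j
    exact h _ (by push_cast; omega)
  · intro h i hi
    obtain ⟨j, hj⟩ := Int.eq_ofNat_of_zero_le (sub_nonneg.2 hi)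
    obtain rfl : i = 2 * ((X.dim : ℤ) + ((0 : ℕ) : ℤ)) - (j : ℤ) := by
      push_cast
      omega
    exact h j

theorem q1_of_rat (hT : T.Facts) {W X : ArSch} (h : RatMap W X) (h3 : W.dim ≤ 3)
    (hW : T.Q1 W) : T.Q1 X := by
  rw [q1_iff] at *
  exact fun j => fg_of_rat hT h h3 (hW j)

end Pool.Agent.Q50.TF
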