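import Pool.Agent.Q50.TF.BDefs
import Pool.Agent.Q50.TF.Main

/-!
# Étale motivic cohomology of regular arithmetic schemes built from finite-dimensional motives
-/

set_option autoImplicit false
set_option maxHeartbeats 4000000
set_option synthInstance.maxHeartbeats 400000
set_option linter.unusedSectionVars false

open AlgebraicGeometry CategoryTheory

universe u

namespace Pool.Agent.Q50.TF

variable {T : MotData.{u}}

/-- `H^i(X_et, ℚ(m)) = 0` except for `m = d`, `i = 2 d`. -/
theorem rational_zero (hT : T.Facts) {q : ℕ} {X : ArSch} (hX : T.OverF q X) (hF : T.FinDim X)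
    {e j : ℕ} (hej : (e, j) ≠ (0, 0)) :
    Subsingleton (T.V X e j) := by
  obtain ⟨P, k, hk, hz⟩ := hT.frobenius q X hX hF
  have hq := hT.prime_power q X hX
  set a := T.act X e j with ha
  set c : ℚ := (q : ℚ) ^ (X.dim + e) with hc
  have h0 : P.eval c ≠ 0 := by
    intro h
    have h1 : Polynomial.aeval (c : ℂ) P = 0 := by
      have : (c : ℂ) = algebraMap ℚ ℂ c := rfl
      rw [this, Polynomial.aeval_algebraMap_apply, Polynomial.coe_aeval_eq_eval, h, map_zero]
    obtain ⟨i, hi, E⟩ := hz _ h1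
    have h2 : (1 : ℝ) < q := by exact_mod_cast hq
    have h3 : ‖(c : ℂ)‖ = (q : ℝ) ^ (X.dim + e) := by
      rw [hc]
      push_cast
      rw [norm_pow, Complex.norm_natCast]
    rw [h3, ← pow_mul] at E
    have := pow_right_injective₀ (by linarith : (0 : ℝ) < q) h2.ne' E
    omega
  have hw : a (T.Fr X) = a (algebraMap ℚ _ c) := hT.weight q X hX e j
  have ht : a (T.top X) = 0 := hT.top q X hX e j hej
  have h1 : a (Polynomial.aeval (T.Fr X) P) = a (algebraMap ℚ _ (P.eval c)) := by
    rw [Polynomial.aeval_def, Polynomial.hom_eval₂, hw]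
    have : a (algebraMap ℚ _ c) = (a.comp (algebraMap ℚ _)) c := rfl
    rw [this, Polynomial.eval₂_at_apply]
    rfl
  have h2 : IsUnit (a (algebraMap ℚ _ (P.eval c))) :=
    ((isUnit_iff_ne_zero.2 h0).map (algebraMap ℚ (T.Corr X))).map a
  have h3 : (a (algebraMap ℚ _ (P.eval c))) ^ k = 0 := by
    have h4 := congrArg a hk
    rw [map_mul, map_pow, map_sub, map_one, ht, sub_zero, mul_one, map_zero, h1] at h4
    exact h4
  have h4 : IsUnit (0 : AddMonoid.End (T.V X e j)) :=
    h3 ▸ h2.pow k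
  have h5 := isUnit_zero_iff.1 h4
  have h6 : ∀ z : T.V X e j, z = 0 :=
    fun z => (DFunLike.congr_fun h5 z).symm
  exact ⟨fun x y => by rw [h6 x, h6 y]⟩

theorem finite_of_exact {A B C : Type u} [AddCommGroup A] [AddCommGroup B] [AddCommGroup C]
    (f : A →+ B) (g : B →+ C) (h : Function.Exact f g) (hA : Finite A) (hC : Subsingleton C) :
    Finite B := by
  refine Finite.of_surjective f fun b => ?_
  exact (h b).1 (Subsingleton.elim _ _)

theorem fg_of_finite {A : Type u} [AddCommGroup A] (h : Finite A) : AddGroup.FG A := by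
  rw [fg_iff]
  exact Module.Finite.of_finite

theorem fg_fst {A B : Type u} [AddCommGroup A] [AddCommGroup B] (h : AddGroup.FG (A × B)) :
    AddGroup.FG A := by
  rw [fg_iff] at *
  exact Module.Finite.of_surjective (LinearMap.fst ℤ A B) fun a => ⟨(a, 0), rfl⟩

theorem fg_apply {n : ℕ} {B : Fin n → Type u} [∀ j, AddCommGroup (B j)]
    (h : AddGroup.FG (∀ j, B j)) (j : Fin n) : AddGroup.FG (B j) := by
  rw [fg_iff] at *
  exact Module.Finite.of_surjective (LinearMap.proj (R := ℤ) (φ := B) j)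
    (LinearMap.proj_surjective j)

theorem finite_finDim (hT : T.Facts) {q : ℕ} {X : ArSch} (hX : T.OverF q X) (hF : T.FinDim X)
    {e j : ℕ} (hej : (e, j) ≠ (0, 0)) : Finite (T.G X e j) := by
  obtain ⟨f, g, h⟩ := hT.coeff X e j
  exact finite_of_exact f g h (hT.finite q X hX e j) (rational_zero hT hX hF hej)

/-- **Main theorem.** -/
theorem fg_built (hT : T.Facts) {S : Set ArSch}
    (hS : ∀ X ∈ S, ∀ e j : ℕ, AddGroup.FG (T.G X e j)) {X : ArSch} (h : T.Built S X) :
    ∀ e j : ℕ, AddGroup.FG (T.G X e j) := by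
  induction h with
  | of h => exact hS _ h
  | low h => exact hT.low _ h
  | @finDim q X h h' =>
    intro e j
    by_cases hej : (e, j) = (0, 0)
    · obtain ⟨rfl, rfl⟩ := Prod.mk.inj hej
      exact hT.zero q X h
    · exact fg_of_finite (finite_finDim hT h h' hej)
  | bundle h _ ih =>
    intro e j
    obtain ⟨E⟩ := (hT.bundle _ _ _ h).2 e j
    exact fg_equiv E (fg_pi fun l => ih _ _)
  | base h _ ih =>
    intro e j
    obtain ⟨E⟩ := (hT.bundle _ _ _ h).2 e j
    exact fg_apply (fg_equiv E.symm (ih e j)) ⟨0, Nat.succ_pos _⟩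
  | blowUp h _ _ ih ih' =>
    intro e j
    obtain ⟨E⟩ := (hT.blow _ _ _ h).2.2 e j
    exact fg_equiv E (fg_prod (ih e j) (fg_pi fun l => ih' _ _))
  | blowDown h _ ih =>
    intro e j
    obtain ⟨E⟩ := (hT.blow _ _ _ h).2.2 e j
    exact fg_fst (fg_equiv E.symm (ih e j))
  | image h _ ih =>
    intro e j
    obtain ⟨-, N, hN, ht⟩ := hT.map _ _ h
    exact fg_transfer (ht e j) (hT.torsion _ e j N hN) (ih e j)

end Pool.Agent.Q50.TF
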