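import Mathlib

/-!
# Étale motivic cohomology of regular arithmetic threefolds: definitions
-/

set_option autoImplicit false

open AlgebraicGeometry CategoryTheory

universe u

namespace Pool.Agent.Q50.TF

/-- A regular connected (so integral) scheme which is proper over the integers; `dim` is its Krull
dimension. -/
structure ArSch where
  /-- the scheme -/
  X : Scheme.{0}
  [int : IsIntegral X]
  /-- the structure morphism -/
  str : X ⟶ Spec (.of ℤ)
  proper : IsProper str
  regular : ∀ x : X, IsRegularLocalRing (X.presheaf.stalk x)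
  /-- the dimension -/
  dim : ℕ
  dim_eq : topologicalKrullDim X = dim

attribute [instance] ArSch.int

/-- The function field. -/
noncomputable abbrev ArSch.K (X : ArSch) : Type := X.X.functionField

/-- There is a dominant morphism from `W` to `X`. -/
def Map (W X : ArSch) : Prop := ∃ f : W.X ⟶ X.X, IsDominant f

/-- There is a dominant rational map from `W` to `X`: the function field of `X` may be embedded in the
function field of `W`. -/
def RatMap (W X : ArSch) : Prop := Nonempty (X.K →+* W.K)

/-- Étale motivic cohomology: the groups `H X m i = H^i(X_et, ℤ(m))`, and the relation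
`BlowUp X' X Y`: `X'` is the blow-up of `X` in the regular connected closed subscheme `Y`. -/
structure EtMot where
  /-- the groups `H^i(X_et, ℤ(m))` -/
  H : ArSch → ℕ → ℤ → Type u
  [grp : ∀ X m i, AddCommGroup (H X m i)]
  /-- blow-ups -/
  BlowUp : ArSch → ArSch → ArSch → Prop

attribute [instance] EtMot.grp

variable (T : EtMot.{u})

/-- The group `H^i(X_et, ℤ(d + e))`, `d` the dimension of `X`, in the degree `i = 2 (d + e) - j`. -/
abbrev EtMot.G (X : ArSch) (e j : ℕ) : Type u := T.H X (X.dim + e) (2 * (X.dim + e) - j)

/-- Q1 for `X`: the groups `H^i(X_et, ℤ(d))` are finitely generated for all `i ≤ 2 d` (negative `i`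
included), `d` the dimension of `X`. -/
def EtMot.Q1 (X : ArSch) : Prop := ∀ i : ℤ, i ≤ 2 * X.dim → AddGroup.FG (T.H X X.dim i)

/-- There are homomorphisms `A → B → A` with composite the multiplication by `N`. -/
def Transfer (N : ℕ) (A B : Type u) [AddCommGroup A] [AddCommGroup B] : Prop :=
  ∃ (f : A →+ B) (g : B →+ A), ∀ x, g (f x) = N • x

/-- `Tower W' W`: the scheme `W'` is obtained from `W` by a finite sequence of blow-ups in regular
connected closed subschemes. -/
inductive EtMot.Tower : ArSch → ArSch → Prop
  | refl (W : ArSch) : Tower W W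
  | step {W'' W' W Y : ArSch} (h : Tower W' W) (hb : T.BlowUp W'' W' Y) : Tower W'' W

/-- Known facts.
* `map` (de Jong; Gysin maps of Déglise, Jin and Khan): for a dominant morphism from `W` to `X` there are
  a regular scheme `V`, proper over the integers, with `dim V = dim X`, and a morphism `V → W` such that
  `g : V → X` is generically finite, of degree `N` say. The pull-back along `g`, followed by the
  push-forwards `V → W` and `W → X`, is the multiplication by `N`.
* `torsion`: the groups `H^i(X_et, ℤ/N(m))` are finite for `m ≥ dim X` (Geisser), hence so is the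
  `N`-torsion of `H^i(X_et, ℤ(m))`.
* `blow`: the formula for the blow-up of `X` in `Y` of codimension `c ≥ 2`: `H^i(X'_et, ℤ(m))` is the
  direct sum of `H^i(X_et, ℤ(m))` and the `H^(i-2l)(Y_et, ℤ(m-l))`, `0 < l < c` (here
  `m = dim X + e`, so `m - l = dim Y + e + 1 + l'` with `l' = c - 1 - l`).
* `low`: in dimension at most one (finite fields, rings of integers of number fields, smooth projective
  curves over finite fields) the groups `H^i(X_et, ℤ(m))` are finitely generated for all
  `m ≥ dim X`, `i ≤ 2 m` (Dirichlet, Quillen, Borel, Harder, Soulé, Voevodsky, Rost).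
* `resolve` (Cossart and Piltant, with Chow's lemma): in dimension at most three a dominant rational map
  from `W` to `X` becomes a morphism after finitely many blow-ups of `W` in regular connected closed
  subschemes of codimension at least two.
* `space`: for a number field `F` with ring of integers `O` the scheme `ℙ^k` over `O` has dimension
  `k + 1` and the function field `F(t_1, …, t_k)`; projective bundle formula:
  `H^i(ℙ^k_et, ℤ(m))` is the direct sum of the `H^(i-2l)(S_et, ℤ(m-l))`, `l ≤ k`, `S = Spec O`. -/
structure EtMot.Facts : Prop where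
  map : ∀ W X, Map W X → X.dim ≤ W.dim ∧ ∃ N, 0 < N ∧ ∀ e j : ℕ, Transfer N (T.G X e j) (T.G W e j)
  torsion : ∀ X (e j N : ℕ), 0 < N → {x : T.G X e j | N • x = 0}.Finite
  blow : ∀ X' X Y, T.BlowUp X' X Y → X'.dim = X.dim ∧ Y.dim + 2 ≤ X.dim ∧
    ∀ e j : ℕ, Nonempty (T.G X' e j ≃+
      T.G X e j × (∀ l : Fin (X.dim - Y.dim - 1), T.G Y (e + 1 + l) j))
  low : ∀ X, X.dim ≤ 1 → ∀ e j : ℕ, AddGroup.FG (T.G X e j)
  resolve : ∀ W X, RatMap W X → W.dim ≤ 3 → ∃ W', T.Tower W' W ∧ Map W' X
  space : ∀ (F : Type) [Field F] [NumberField F] (k : ℕ), ∃ W S : ArSch, W.dim = k + 1 ∧ S.dim = 1 ∧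
    Nonempty (W.K ≃+* FractionRing (MvPolynomial (Fin k) F)) ∧
    ∀ e j : ℕ, Nonempty (T.G W e j ≃+ (∀ l : Fin (k + 1), T.G S (e + l) j))

end Pool.Agent.Q50.TF
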